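import Pool.Agent.Lib.MP_f38b71_nt.CM
import Pool.Agent.Lib.MP_f38b71_nt.QExp

/-!
Question Q2 of MP_f38b71_nt has a negative answer: for the curve
y^2 + xy = x^3 - x^2 - 37x - 78 (conductor 49, j = 255^3, complex multiplication by the order of
discriminant -28) and the ordinary prime p = 2, the congruence fails at n = l = 1 in every weight.
-/

namespace Pool.Agent.Results.MP_f38b71_nt.CMCounterexample

open Pool.Agent.Lib.MP_f38b71_nt WeierstrassCurve

theorem card_mod_two :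
    Nat.card ((⟨1, -1, 0, -37, -78⟩ : WeierstrassCurve ℤ).map
      (Int.castRingHom (ZMod 2))).toAffine.Point = 2 := by
  set W := ((⟨1, -1, 0, -37, -78⟩ : WeierstrassCurve ℤ).map (Int.castRingHom (ZMod 2))) with hW
  have key : ∀ x y : ZMod 2, W.toAffine.Nonsingular x y ↔ x = 0 ∧ y = 0 := by
    intro x y
    rw [Affine.nonsingular_iff, Affine.equation_iff, hW]
    simp only [map_a₁, map_a₂, map_a₃, map_a₄, map_a₆, eq_intCast]
    revert x y
    decide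
  rw [Nat.card_eq_two_iff]
  refine ⟨0, Affine.Point.some 0 0 ((key 0 0).mpr ⟨rfl, rfl⟩),
    (Affine.Point.some_ne_zero _).symm, ?_⟩
  rw [Set.eq_univ_iff_forall]
  rintro (_ | ⟨x, y, h⟩)
  · exact Or.inl rfl
  · obtain ⟨rfl, rfl⟩ := (key x y).mp h
    exact Or.inr rfl

theorem exists_unit_root : ∃ u : ℤ_[2], IsUnit u ∧ u ^ 2 - u + 2 = 0 := by
  have h := @hensels_lemma 2 _ ℤ _ _ (Polynomial.X ^ 2 - Polynomial.X + 2) 1 (by
    have h2 : ‖(2 : ℤ_[2])‖ < 1 := by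
      have := PadicInt.norm_p (p := 2)
      norm_num at this ⊢
      rw [this]
      norm_num
    have e1 : (Polynomial.aeval (1 : ℤ_[2])) (Polynomial.X ^ 2 - Polynomial.X + 2 : Polynomial ℤ)
        = 2 := by simp [map_ofNat]
    have e2 : (Polynomial.aeval (1 : ℤ_[2]))
        (Polynomial.X ^ 2 - Polynomial.X + 2 : Polynomial ℤ).derivative = 1 := by
      simp [map_ofNat]
      norm_num
    rw [e1, e2]
    simpa using h2)
  obtain ⟨z, hz, hz', -⟩ := h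
  have hz2 : z ^ 2 - z + 2 = 0 := by simpa [map_ofNat] using hz
  refine ⟨z, ?_, hz2⟩
  have e2 : (Polynomial.aeval (1 : ℤ_[2]))
      (Polynomial.X ^ 2 - Polynomial.X + 2 : Polynomial ℤ).derivative = 1 := by
    simp [map_ofNat]
    norm_num
  rw [e2, norm_one] at hz'
  rw [PadicInt.isUnit_iff]
  have : z = 1 + (z - 1) := by ring
  rw [this, PadicInt.norm_add_eq_max_of_ne (by rw [norm_one]; exact hz'.ne'), norm_one]
  exact max_eq_left hz'.le

theorem val_one (w : ℤ_[2]) : ((6 + 8 * w : ℤ_[2]) : ℚ_[2]) ≠ 0 ∧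
    ((6 + 8 * w : ℤ_[2]) : ℚ_[2]).valuation = 1 := by
  have h2 : ‖(2 : ℤ_[2])‖ < 1 := by
    have := PadicInt.norm_p (p := 2)
    norm_num at this ⊢
    rw [this]
    norm_num
  have hn : ‖(1 + 2 * (1 + 2 * w) : ℤ_[2])‖ = 1 := by
    have h3 : ‖(2 * (1 + 2 * w) : ℤ_[2])‖ < 1 := by
      rw [norm_mul]
      exact lt_of_le_of_lt (mul_le_of_le_one_right (norm_nonneg _) (PadicInt.norm_le_one _)) h2
    rw [PadicInt.norm_add_eq_max_of_ne (by rw [norm_one]; exact h3.ne'), norm_one]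
    exact max_eq_left h3.le
  have hne : ((1 + 2 * (1 + 2 * w) : ℤ_[2]) : ℚ_[2]) ≠ 0 := by
    intro h
    rw [PadicInt.coe_eq_zero] at h
    rw [h] at hn
    simp at hn
  have hv : ((1 + 2 * (1 + 2 * w) : ℤ_[2]) : ℚ_[2]).valuation = 0 := by
    have h1 := Padic.norm_eq_zpow_neg_valuation hne
    rw [← PadicInt.norm_def, hn] at h1
    have h3 := (zpow_eq_one_iff_right₀ (by norm_num) (by norm_num)).mp h1.symm
    omega
  have e : ((6 + 8 * w : ℤ_[2]) : ℚ_[2]) =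
      ((2 : ℕ) : ℚ_[2]) * ((1 + 2 * (1 + 2 * w) : ℤ_[2]) : ℚ_[2]) := by
    have : (6 + 8 * w : ℤ_[2]) = ((2 : ℕ) : ℤ_[2]) * (1 + 2 * (1 + 2 * w)) := by
      push_cast
      ring
    rw [this, PadicInt.coe_mul, PadicInt.coe_natCast]
  rw [e]
  refine ⟨mul_ne_zero (by norm_num) hne, ?_⟩
  rw [Padic.valuation_mul (by norm_num) hne, hv, Padic.valuation_p]
  norm_num

theorem result :
    ∃ (W : WeierstrassCurve ℤ) (_ : (W.map (Int.castRingHom ℚ)).IsElliptic)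
      (p : ℕ) (_ : Fact p.Prime) (u : ℤ_[p]),
      W = ⟨1, -1, 0, -37, -78⟩ ∧ p = 2 ∧
      (W.map (Int.castRingHom ℚ)).j ≠ 0 ∧ (W.map (Int.castRingHom ℚ)).j ≠ 1728 ∧
      HasCM (W.map (Int.castRingHom ℚ)) ∧
      ¬ (p : ℤ) ∣ W.Δ ∧ ¬ (p : ℤ) ∣ frobTrace W p ∧
      padicValRat p (W.map (Int.castRingHom ℚ)).j = 0 ∧
      padicValRat p ((W.map (Int.castRingHom ℚ)).j - 1728) = 0 ∧
      IsUnit u ∧ u ^ 2 - (frobTrace W p : ℤ_[p]) * u + (p : ℤ_[p]) = 0 ∧
      ∀ k ∈ ({4, 6, 8, 10, 14} : Set ℕ), ∃ n l : ℕ, 1 ≤ n ∧ 1 ≤ l ∧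
        (coeffF k (W.map (Int.castRingHom ℚ)).j (n * p ^ l) : ℚ_[p]) -
            (u : ℚ_[p]) ^ (k - 2) *
              (coeffF k (W.map (Int.castRingHom ℚ)).j (n * p ^ (l - 1)) : ℚ_[p]) ≠ 0 ∧
        ((coeffF k (W.map (Int.castRingHom ℚ)).j (n * p ^ l) : ℚ_[p]) -
            (u : ℚ_[p]) ^ (k - 2) *
              (coeffF k (W.map (Int.castRingHom ℚ)).j (n * p ^ (l - 1)) : ℚ_[p])).valuation <
          ((k : ℤ) - 1) * (l : ℤ) := by
  obtain ⟨u, hu, hu2⟩ := exists_unit_root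
  have hΔ : (⟨1, -1, 0, -37, -78⟩ : WeierstrassCurve ℤ).Δ = 343 := by
    simp only [Δ, b₂, b₄, b₆, b₈]
    norm_num
  have hc4 : (⟨1, -1, 0, -37, -78⟩ : WeierstrassCurve ℤ).c₄ = 1785 := by
    simp only [c₄, b₂, b₄]
    norm_num
  have hE : ((⟨1, -1, 0, -37, -78⟩ : WeierstrassCurve ℤ).map (Int.castRingHom ℚ)).IsElliptic :=
    ⟨by rw [map_Δ, hΔ]; simp⟩
  have hj : ((⟨1, -1, 0, -37, -78⟩ : WeierstrassCurve ℤ).map (Int.castRingHom ℚ)).j =
      16581375 := by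
    rw [j, Units.val_inv_eq_inv_val, coe_Δ', map_Δ, map_c₄, hΔ, hc4]
    norm_num
  have ha : frobTrace ⟨1, -1, 0, -37, -78⟩ 2 = 1 := by
    rw [frobTrace, card_mod_two]
    norm_num
  have hval : ∀ m : ℕ, ¬ 2 ∣ m → padicValRat 2 (m : ℚ) = 0 := by
    intro m hm
    rw [padicValRat.of_nat, padicValNat.eq_zero_of_not_dvd hm]
    rfl
  refine ⟨⟨1, -1, 0, -37, -78⟩, hE, 2, ⟨Nat.prime_two⟩, u, rfl, rfl, ?_, ?_, hasCM_49, ?_, ?_, ?_,
    ?_, hu, ?_, ?_⟩
  · rw [hj]; norm_num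
  · rw [hj]; norm_num
  · rw [hΔ]; norm_num
  · rw [ha]; norm_num
  · rw [hj]; exact_mod_cast hval 16581375 (by norm_num)
  · rw [hj]
    have : (16581375 - 1728 : ℚ) = ((16579647 : ℕ) : ℚ) := by norm_num
    rw [this]
    exact hval _ (by norm_num)
  · rw [ha]
    push_cast
    linear_combination hu2
  · obtain ⟨v, hv⟩ := hu.exists_right_inv
    have h8 : u ^ 2 = 1 + 8 * v ^ 3 := by
      have h1 : u = 1 - 2 * v := by linear_combination v * hu2 - (u - 1) * hv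
      have h3 : v = 1 + 2 * v ^ 2 := by linear_combination hv - v * h1
      linear_combination (u + 1 - 2 * v) * h1 + 4 * v * h3
    have hpow : ∀ m : ℕ, ∃ w : ℤ_[2], u ^ (2 * m) = 1 + 8 * w := by
      intro m
      induction m with
      | zero => exact ⟨0, by simp⟩
      | succ m ih =>
        obtain ⟨w, hw⟩ := ih
        refine ⟨w + v ^ 3 * (1 + 8 * w), ?_⟩
        rw [Nat.mul_succ, pow_add, hw, h8]
        ring
    have main : ∀ (k m : ℕ) (e : ℤ), k - 2 = 2 * m → 3 ≤ k →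
        PowerSeries.coeff 1 (eisenstein k) = 8 * e →
        ∃ n l : ℕ, 1 ≤ n ∧ 1 ≤ l ∧
        (coeffF k 16581375 (n * 2 ^ l) : ℚ_[2]) -
            (u : ℚ_[2]) ^ (k - 2) * (coeffF k 16581375 (n * 2 ^ (l - 1)) : ℚ_[2]) ≠ 0 ∧
        ((coeffF k 16581375 (n * 2 ^ l) : ℚ_[2]) -
            (u : ℚ_[2]) ^ (k - 2) * (coeffF k 16581375 (n * 2 ^ (l - 1)) : ℚ_[2])).valuation <
          ((k : ℤ) - 1) * (l : ℤ) := by
      intro k m e hk hk3 he
      obtain ⟨w, hw⟩ := hpow m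
      obtain ⟨c1, c2⟩ := coeffF_one_two k 16581375
      have hx : (coeffF k 16581375 (1 * 2 ^ 1) : ℚ_[2]) -
          (u : ℚ_[2]) ^ (k - 2) * (coeffF k 16581375 (1 * 2 ^ (1 - 1)) : ℚ_[2]) =
          ((6 + 8 * (2072578 + (e : ℤ_[2]) - w) : ℤ_[2]) : ℚ_[2]) := by
        norm_num only
        rw [c1, c2, he, hk, ← PadicInt.coe_pow, hw]
        have c8 : ((8 : ℤ_[2]) : ℚ_[2]) = 8 := PadicInt.coe_natCast 8
        have c6 : ((6 : ℤ_[2]) : ℚ_[2]) = 6 := PadicInt.coe_natCast 6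
        have c7 : ((2072578 : ℤ_[2]) : ℚ_[2]) = 2072578 := PadicInt.coe_natCast 2072578
        push_cast
        rw [c8, c6, c7]
        ring
      refine ⟨1, 1, le_rfl, le_rfl, ?_, ?_⟩
      · rw [hx]; exact (val_one _).1
      · rw [hx, (val_one _).2]
        omega
    rw [hj]
    intro k hk
    simp only [Set.mem_insert_iff, Set.mem_singleton_iff] at hk
    rcases hk with rfl | rfl | rfl | rfl | rfl
    · exact main 4 1 30 rfl (by norm_num) (by rw [eis_one, bern4]; norm_num)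
    · exact main 6 2 (-63) rfl (by norm_num) (by rw [eis_one, bern6]; norm_num)
    · exact main 8 3 60 rfl (by norm_num) (by rw [eis_one, bern8]; norm_num)
    · exact main 10 4 (-33) rfl (by norm_num) (by rw [eis_one, bern10]; norm_num)
    · exact main 14 6 (-3) rfl (by norm_num) (by rw [eis_one, bern14]; norm_num)

end Pool.Agent.Results.MP_f38b71_nt.CMCounterexample
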